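import Pool.Agent.Q66.RX.Stm

/-!
Project RX (helper66), job FAM: `UniformFun I X` and its subgroups as groups of families.
-/

set_option autoImplicit false

open Topology Filter Set Uniformity

namespace Pool.Agent.Q76.RX

open Pool.Agent.Q66.RX

/-- neighbourhoods of one in the group of families with the uniform topology -/
theorem mem_nhds_one_iff (I X : Type) [CommGroup X] [UniformSpace X] [IsUniformGroup X]
    (W : Set (UniformFun I X)) : W ∈ 𝓝 (1 : UniformFun I X) ↔
      ∃ U ∈ 𝓝 (1 : X), ∀ g : UniformFun I X, (∀ i, UniformFun.toFun g i ∈ U) → g ∈ W := by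
  have hb := UniformFun.hasBasis_nhds_one (α := I) (G := X)
  rw [hb.mem_iff]
  constructor
  · rintro ⟨U, hU, h⟩
    exact ⟨U, hU, fun g hg => h hg⟩
  · rintro ⟨U, hU, h⟩
    exact ⟨U, hU, fun g hg => h g hg⟩

/-- The groups of families. -/
theorem t_FAM : S_FAM := by
  intro I X _ _ _
  refine ⟨⟨{ c := { toFun := fun g i => UniformFun.toFun g i
                    map_one' := rfl
                    map_mul' := fun _ _ => rfl }
             inj := ?_
             nhd := ?_ }, ?_⟩, fun S => ⟨{ c := { toFun := fun g i => UniformFun.toFun (g : UniformFun I X) i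
                                                  map_one' := rfl
                                                  map_mul' := fun _ _ => rfl }
                                           inj := ?_
                                           nhd := ?_ }, ?_⟩⟩
  · intro a b h
    exact h
  · intro W
    exact mem_nhds_one_iff I X W
  · intro g i
    rfl
  · intro a b h
    exact Subtype.ext h
  · intro W
    rw [nhds_subtype_eq_comap, mem_comap]
    constructor
    · rintro ⟨W', hW', h⟩
      obtain ⟨U, hU, h2⟩ := (mem_nhds_one_iff I X W').1 hW'
      exact ⟨U, hU, fun g hg => h (h2 _ hg)⟩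
    · rintro ⟨U, hU, h⟩
      exact ⟨{g | ∀ i, UniformFun.toFun g i ∈ U}, (mem_nhds_one_iff I X _).2 ⟨U, hU, fun g hg => hg⟩,
        fun g hg => h g hg⟩
  · intro g i
    rfl

end Pool.Agent.Q76.RX

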